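import Pool.Agent.helper41.CL.Spec

set_option autoImplicit false

namespace Pool.Agent.helper41.CL

open Finset

theorem EA_pair {α : Type} [DecidableEq α] (V : Finset α) (E : Finset (Finset α)) (p : α)
    (hG : Gr V E) (f : Finset α) (hf : f ∈ inc E p) : ∃ a, a ∈ V ∧ p ≠ a ∧ f = {p, a} := by
  have hf' : f ∈ E ∧ p ∈ f := by
    simpa [inc] using hf
  obtain ⟨hfE, hpf⟩ := hf'
  obtain ⟨hfV, hc⟩ := hG f hfE
  obtain ⟨x, y, hxy, hfxy⟩ := Finset.card_eq_two.mp hc
  rw [hfxy] at hpf
  rw [Finset.mem_insert, Finset.mem_singleton] at hpf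
  rcases hpf with h | h
  · refine ⟨y, ?_, ?_, ?_⟩
    · apply hfV
      rw [hfxy]
      simp
    · rw [h]
      exact hxy
    · rw [hfxy, h]
  · refine ⟨x, ?_, ?_, ?_⟩
    · apply hfV
      rw [hfxy]
      simp
    · rw [h]
      exact hxy.symm
    · rw [hfxy, h, Finset.pair_comm]

theorem EA_split {α : Type} [DecidableEq α] (E : Finset (Finset α)) (p : α) :
    #(inc E p) + #(E.filter fun e => p ∉ e) = #E := by
  unfold inc
  exact Finset.card_filter_add_card_filter_not (s := E) (fun e => p ∈ e)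

theorem EA_gr {α : Type} [DecidableEq α] (V : Finset α) (E : Finset (Finset α)) (p : α)
    (hG : Gr V E) : Gr (V.erase p) (E.filter fun e => p ∉ e) := by
  intro e he
  rw [Finset.mem_filter] at he
  obtain ⟨h1, h2⟩ := hG e he.1
  exact ⟨Finset.subset_erase.mpr ⟨h1, he.2⟩, h2⟩

theorem EA (h1 : AZ_stmt) (h2 : AO_stmt) (h3 : SP_stmt) (h4 : WO_stmt) (h5 : SD_stmt) :
    EA_stmt := by
  intro α _ V E p hG hdeg hEV
  have hsplit := EA_split E p
  have hG1 := EA_gr V E p hG
  have hpV : p ∈ V := by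
    have hne : (inc E p).Nonempty := by
      rw [← Finset.card_pos]
      omega
    obtain ⟨f, hf⟩ := hne
    have hf' : f ∈ E ∧ p ∈ f := by
      simpa [inc] using hf
    exact (hG f hf'.1).1 hf'.2
  have hcV : #(V.erase p) = #V - 1 := Finset.card_erase_of_mem hpV
  obtain ⟨w, hw⟩ : ∃ w, 2 * #V = 3 * #E + w := ⟨2 * #V - 3 * #E, by omega⟩
  have hgoal : 2 * #V - 3 * #E + 6 = w + 6 := by omega
  rw [hgoal]
  by_cases hd2 : #(inc E p) = 2
  · -- degree two
    obtain ⟨e', he'⟩ : ∃ e', #E = e' + 2 := ⟨#E - 2, by omega⟩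
    obtain ⟨f, g, hfg, hfgE⟩ := Finset.card_eq_two.mp hd2
    have hfm : f ∈ inc E p := by
      rw [hfgE]
      simp
    have hgm : g ∈ inc E p := by
      rw [hfgE]
      simp
    obtain ⟨a, haV, hpa, hfa⟩ := EA_pair V E p hG f hfm
    obtain ⟨b, hbV, hpb, hgb⟩ := EA_pair V E p hG g hgm
    have hab : a ≠ b := by
      rintro rfl
      exact hfg (hfa.trans hgb.symm)
    have hE : ∀ e ∈ E, p ∈ e → e = {p, a} ∨ e = {p, b} := by
      intro e he hpe
      have hm : e ∈ inc E p := by
        unfold inc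
        rw [Finset.mem_filter]
        exact ⟨he, hpe⟩
      rw [hfgE, Finset.mem_insert, Finset.mem_singleton] at hm
      rcases hm with h | h
      · exact Or.inl (h.trans hfa)
      · exact Or.inr (h.trans hgb)
    have hSP := h3 α V E p (e' + 1) hpV
    have hAO := h2 α (V.erase p) (E.filter fun e => p ∉ e) e' hG1 (by omega) (by omega)
    have hWO := h4 α V E p a b e' haV hbV hpa hpb hab hE
    have hG0 : Gr (V \ {p, a, b}) (E.filter fun e => p ∉ e ∧ a ∉ e ∧ b ∉ e) := by
      intro e he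
      rw [Finset.mem_filter] at he
      obtain ⟨heE, hpe, hae, hbe⟩ := he
      obtain ⟨hs, hc⟩ := hG e heE
      refine ⟨?_, hc⟩
      intro x hx
      rw [Finset.mem_sdiff]
      refine ⟨hs hx, ?_⟩
      intro hx'
      simp only [Finset.mem_insert, Finset.mem_singleton] at hx'
      rcases hx' with h | h | h
      · exact hpe (h ▸ hx)
      · exact hae (h ▸ hx)
      · exact hbe (h ▸ hx)
    have hc0 : #(E.filter fun e => p ∉ e ∧ a ∉ e ∧ b ∉ e) ≤ e' := by
      have hle : #(E.filter fun e => p ∉ e ∧ a ∉ e ∧ b ∉ e) ≤ #(E.filter fun e => p ∉ e) := by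
        apply Finset.card_le_card
        intro e he
        rw [Finset.mem_filter] at he ⊢
        exact ⟨he.1, he.2.1⟩
      omega
    have hsub : ({p, a, b} : Finset α) ⊆ V := by
      intro x hx
      simp only [Finset.mem_insert, Finset.mem_singleton] at hx
      rcases hx with h | h | h
      · rw [h]; exact hpV
      · rw [h]; exact haV
      · rw [h]; exact hbV
    have hcc : #(V \ {p, a, b}) = #V - 3 := by
      rw [Finset.card_sdiff_of_subset hsub, Finset.card_eq_three.mpr ⟨p, a, b, hpa, hpb, hab, rfl⟩]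
    have hAZ := h1 α (V \ {p, a, b}) (E.filter fun e => p ∉ e ∧ a ∉ e ∧ b ∉ e) e' hG0 hc0
      (by omega)
    rw [hcV] at hAO
    have hA2 : 2 * (#V - 1) - 3 * e' = w + 4 := by omega
    rw [hA2] at hAO
    rw [he']
    have hSP' : #(cov V E (e' + 2)) = #(cov (V.erase p) (E.filter fun e => p ∉ e) (e' + 1)) +
        #(cov (V.erase p) E (e' + 2)) := hSP
    rw [hSP']
    have hpow : 2 ^ (e' + 2) = 4 * 2 ^ e' := by
      rw [pow_add]
      ring
    rw [hpow]
    have hfin : 4 * 2 ^ e' * (w + 6) = 4 * (2 ^ e' * (w + 4)) + 8 * 2 ^ e' := by ring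
    rw [hfin]
    omega
  · -- degree at least three
    obtain ⟨f, hf⟩ : ∃ f, #E = f + 3 := ⟨#E - 3, by omega⟩
    have hE1 : #(E.filter fun e => p ∉ e) ≤ f := by omega
    have hSP := h3 α V E p (f + 2) hpV
    have hSP' : #(cov V E (f + 3)) = #(cov (V.erase p) (E.filter fun e => p ∉ e) (f + 2)) +
        #(cov (V.erase p) E (f + 3)) := hSP
    generalize hEE : (E.filter fun e => p ∉ e) = E1 at *
    have hu : ∃ u ∈ V.erase p, #(inc E1 u) = 0 := by
      by_contra hcon
      push Not at hcon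
      have hsd := h5 α (V.erase p) E1 hG1
      have hle : #(V.erase p) ≤ ∑ x ∈ V.erase p, #(inc E1 x) := by
        calc #(V.erase p) = ∑ x ∈ V.erase p, 1 := by simp
          _ ≤ ∑ x ∈ V.erase p, #(inc E1 x) := by
            apply Finset.sum_le_sum
            intro x hx
            exact Nat.one_le_iff_ne_zero.mpr (hcon x hx)
      omega
    obtain ⟨u, huV, hu0⟩ := hu
    have hun : ∀ e ∈ E1, u ∉ e := by
      intro e he hue
      have hm : e ∈ inc E1 u := by
        unfold inc
        rw [Finset.mem_filter]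
        exact ⟨he, hue⟩
      rw [Finset.card_eq_zero.mp hu0] at hm
      exact absurd hm (Finset.notMem_empty e)
    have hfilt : (E1.filter fun e => u ∉ e) = E1 := Finset.filter_true_of_mem hun
    have hSPu := h3 α (V.erase p) E1 u (f + 1) huV
    rw [hfilt] at hSPu
    have hG2 := EA_gr (V.erase p) E1 u hG1
    rw [hfilt] at hG2
    have hcU : #((V.erase p).erase u) = #V - 2 := by
      rw [Finset.card_erase_of_mem huV, hcV]
      omega
    have hAO1 := h2 α ((V.erase p).erase u) E1 f hG2 hE1 (by omega)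
    have hAO2 := h2 α ((V.erase p).erase u) E1 (f + 1) hG2 (by omega) (by omega)
    rw [hcU] at hAO1 hAO2
    have hA1 : 2 * (#V - 2) - 3 * f = w + 5 := by omega
    have hA2 : 2 * (#V - 2) - 3 * (f + 1) = w + 2 := by omega
    rw [hA1] at hAO1
    rw [hA2] at hAO2
    have hSPu' : #(cov (V.erase p) E1 (f + 2)) = #(cov ((V.erase p).erase u) E1 (f + 1)) +
        #(cov ((V.erase p).erase u) E1 (f + 2)) := hSPu
    have hAO2' : 2 ^ (f + 1) * (w + 2) ≤ 2 * #(cov ((V.erase p).erase u) E1 (f + 2)) := hAO2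
    have hw3 : 3 ≤ w := by omega
    rw [hf, hSP', hSPu']
    have hpow : 2 ^ (f + 3) = 8 * 2 ^ f := by
      rw [pow_add]
      ring
    have hpow1 : 2 ^ (f + 1) = 2 * 2 ^ f := by
      rw [pow_succ]
      ring
    rw [hpow]
    rw [hpow1] at hAO2'
    have hkey : 8 * 2 ^ f * (w + 6) ≤ 4 * (2 ^ f * (w + 5)) + 4 * (2 * 2 ^ f * (w + 2)) := by
      have h0 : 4 * (2 ^ f * (w + 5)) + 4 * (2 * 2 ^ f * (w + 2)) = 2 ^ f * (12 * w + 36) := by ring
      have h00 : 8 * 2 ^ f * (w + 6) = 2 ^ f * (8 * w + 48) := by ring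
      rw [h0, h00]
      exact Nat.mul_le_mul_left _ (by omega)
    omega

end Pool.Agent.helper41.CL
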