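import Pool.Agent.helper47.CL.SpecD

set_option autoImplicit false

namespace Pool.Agent.helper41.CL

open Finset

theorem ZB : ZB_stmt := by
  intro α _ V E c hG hc
  apply Finset.card_bij' (fun C _ => V \ C) (fun I _ => V \ I)
  · intro C hC
    unfold cov at hC
    unfold ind
    rw [mem_filter, mem_powersetCard] at hC ⊢
    obtain ⟨⟨h1, h2⟩, h3⟩ := hC
    refine ⟨⟨sdiff_subset, ?_⟩, ?_⟩
    · rw [card_sdiff_of_subset h1, h2]
    · intro e he hsub
      obtain ⟨x, hx, hxC⟩ := h3 e he
      exact (mem_sdiff.1 (hsub hx)).2 hxC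
  · intro I hI
    unfold ind at hI
    unfold cov
    rw [mem_filter, mem_powersetCard] at hI ⊢
    obtain ⟨⟨h1, h2⟩, h3⟩ := hI
    refine ⟨⟨sdiff_subset, ?_⟩, ?_⟩
    · rw [card_sdiff_of_subset h1, h2]
      omega
    · intro e he
      have := h3 e he
      rw [not_subset] at this
      obtain ⟨x, hx, hxI⟩ := this
      exact ⟨x, hx, mem_sdiff.2 ⟨(hG e he).1 hx, hxI⟩⟩
  · intro C hC
    unfold cov at hC
    rw [mem_filter, mem_powersetCard] at hC
    exact Finset.sdiff_sdiff_eq_self hC.1.1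
  · intro I hI
    unfold ind at hI
    rw [mem_filter, mem_powersetCard] at hI
    exact Finset.sdiff_sdiff_eq_self hI.1.1

end Pool.Agent.helper41.CL
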